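import Pool.Agent.Helper78.LD10.Asm

/-!
# Project LD11: integer multiples of the coordinates, shifts of the ranges
-/

set_option autoImplicit false

namespace Pool.Agent.Helper78.LD11

open Set Filter Topology
open Pool.Agent.Helper78.LD10 (count_add count_triv)

/-- the interval of `m * u` in terms of `u` -/
theorem fract_mul_iff {m : ℕ} (hm : 1 ≤ m) {u α γ : ℝ} (h0 : 0 ≤ α) (h1 : γ ≤ 1) (κ : ℕ) :
    (⌊(m : ℝ) * Int.fract u⌋₊ = κ ∧ α ≤ Int.fract ((m : ℝ) * u) ∧ Int.fract ((m : ℝ) * u) < γ) ↔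
      (κ + α) / m ≤ Int.fract u ∧ Int.fract u < (κ + γ) / m := by
  have hm0 : (0 : ℝ) < m := by exact_mod_cast hm
  have hf0 := Int.fract_nonneg u
  have hmf : 0 ≤ (m : ℝ) * Int.fract u := mul_nonneg hm0.le hf0
  have h2 : Int.fract ((m : ℝ) * u) = Int.fract ((m : ℝ) * Int.fract u) := by
    have h3 : (m : ℝ) * u = (m : ℝ) * Int.fract u + ((m * ⌊u⌋ : ℤ) : ℝ) := by
      have := Int.fract_add_floor u
      push_cast
      rw [← mul_add, this]
    rw [h3, Int.fract_add_intCast]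
  have h4 : Int.fract ((m : ℝ) * Int.fract u) = (m : ℝ) * Int.fract u - ⌊(m : ℝ) * Int.fract u⌋₊ := by
    rw [natCast_floor_eq_intCast_floor hmf]
    rfl
  rw [h2, h4, div_le_iff₀ hm0, lt_div_iff₀ hm0]
  constructor
  · rintro ⟨h5, h6, h7⟩
    rw [h5] at h6 h7
    constructor <;> linarith
  · rintro ⟨h5, h6⟩
    have h7 : ⌊(m : ℝ) * Int.fract u⌋₊ = κ := by
      rw [Nat.floor_eq_iff hmf]
      constructor <;> linarith
    rw [h7]
    refine ⟨rfl, ?_, ?_⟩ <;> linarith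

/-- boxes for the multiples -/
theorem mult_box {s : ℕ} {y : ℕ → Fin s → ℝ} {S : Finset ℕ} {L E : ℝ} (h : ∀ α γ : Fin s → ℝ, (∀ i, 0 ≤ α i ∧ α i ≤ γ i ∧ γ i ≤ 1) →
      |((S.filter fun n : ℕ => ∀ i : Fin s, α i ≤ Int.fract (y n i) ∧ Int.fract (y n i) < γ i).card : ℝ) - L * ∏ i, (γ i - α i)| ≤ E)
    {m : Fin s → ℕ} (hm : ∀ i, 1 ≤ m i) (α γ : Fin s → ℝ) (hαγ : ∀ i, 0 ≤ α i ∧ α i ≤ γ i ∧ γ i ≤ 1) :
    |((S.filter fun n : ℕ => ∀ i : Fin s, α i ≤ Int.fract ((m i : ℝ) * y n i) ∧ Int.fract ((m i : ℝ) * y n i) < γ i).card : ℝ) - L * ∏ i, (γ i - α i)| ≤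
      ((∏ i, m i : ℕ) : ℝ) * E := by
  classical
  have hm0 : ∀ i, (0 : ℝ) < m i := fun i => by exact_mod_cast hm i
  obtain ⟨J, hJ⟩ : ∃ J : Finset (Fin s → ℕ), J = Fintype.piFinset fun i => Finset.range (m i) := ⟨_, rfl⟩
  have hJc : J.card = ∏ i, m i := by
    rw [hJ, Fintype.card_piFinset]
    exact Finset.prod_congr rfl fun i _ => Finset.card_range _
  have h1 : (S.filter fun n : ℕ => ∀ i : Fin s, α i ≤ Int.fract ((m i : ℝ) * y n i) ∧ Int.fract ((m i : ℝ) * y n i) < γ i).card =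
      ∑ κ ∈ J, (S.filter fun n : ℕ => ∀ i : Fin s, (κ i + α i) / m i ≤ Int.fract (y n i) ∧ Int.fract (y n i) < (κ i + γ i) / m i).card := by
    rw [Finset.card_eq_sum_card_fiberwise (f := fun n i => ⌊(m i : ℝ) * Int.fract (y n i)⌋₊) (t := J)]
    · refine Finset.sum_congr rfl fun κ _ => ?_
      congr 1
      ext n
      simp only [Finset.mem_filter]
      constructor
      · rintro ⟨⟨h2, h3⟩, h4⟩
        refine ⟨h2, fun i => ?_⟩
        exact (fract_mul_iff (hm i) (hαγ i).1 (hαγ i).2.2 (κ i)).1 ⟨congrFun h4 i, h3 i⟩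
      · rintro ⟨h2, h3⟩
        have h4 := fun i => (fract_mul_iff (hm i) (hαγ i).1 (hαγ i).2.2 (κ i)).2 (h3 i)
        exact ⟨⟨h2, fun i => (h4 i).2⟩, funext fun i => (h4 i).1⟩
    · intro n _
      rw [hJ]
      simp only [Finset.mem_coe, Fintype.mem_piFinset, Finset.mem_range]
      intro i
      rw [Nat.floor_lt (mul_nonneg (hm0 i).le (Int.fract_nonneg _))]
      exact mul_lt_of_lt_one_right (hm0 i) (Int.fract_lt_one _)
  have h2 : ∏ i, (γ i - α i) = ∑ κ ∈ J, ∏ i, ((κ i + γ i) / m i - (κ i + α i) / m i) := by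
    have h3 : ∀ κ ∈ J, ∏ i, (((κ : Fin s → ℕ) i + γ i) / m i - (κ i + α i) / m i) = ∏ i, ((γ i - α i) / m i) := by
      intro κ _
      refine Finset.prod_congr rfl fun i _ => ?_
      ring
    rw [Finset.sum_congr rfl h3, Finset.sum_const, hJc, nsmul_eq_mul, Finset.prod_div_distrib]
    push_cast
    rw [mul_div_assoc', mul_comm, mul_div_assoc, div_self, mul_one]
    exact Finset.prod_ne_zero_iff.2 fun i _ => (hm0 i).ne'
  rw [h1, h2, Finset.mul_sum]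
  push_cast
  rw [← Finset.sum_sub_distrib]
  refine (Finset.abs_sum_le_sum_abs _ _).trans ?_
  have h3 : ∀ κ ∈ J, |((S.filter fun n : ℕ => ∀ i : Fin s, ((κ : Fin s → ℕ) i + α i) / m i ≤ Int.fract (y n i) ∧ Int.fract (y n i) < (κ i + γ i) / m i).card : ℝ) -
      L * ∏ i, ((κ i + γ i) / m i - (κ i + α i) / m i)| ≤ E := by
    intro κ hκ
    refine h (fun i => (κ i + α i) / m i) (fun i => (κ i + γ i) / m i) fun i => ?_
    rw [hJ, Fintype.mem_piFinset] at hκ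
    have h4 := Finset.mem_range.1 (hκ i)
    have h5 : ((κ i : ℕ) : ℝ) + 1 ≤ m i := by exact_mod_cast h4
    obtain ⟨h6, h7, h8⟩ := hαγ i
    have h9 : (0 : ℝ) ≤ κ i := Nat.cast_nonneg _
    refine ⟨by positivity, ?_, ?_⟩
    · exact div_le_div_of_nonneg_right (by linarith) (hm0 i).le
    · rw [div_le_one (hm0 i)]
      linarith
  refine (Finset.sum_le_sum h3).trans (le_of_eq ?_)
  rw [Finset.sum_const, hJc, nsmul_eq_mul]
  push_cast
  rfl

/-- the ranges may be shifted -/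
theorem shift_count (P : ℕ → Prop) [DecidablePred P] {v : ℝ} (hv : 0 ≤ v ∧ v ≤ 1) {m₁ m₂ m₁' m₂' w : ℕ} (h1 : m₁ ≤ m₁') (h1' : m₁' ≤ m₁ + w)
    (h2 : m₂ ≤ m₂') (h2' : m₂' ≤ m₂ + w) (h : m₁ ≤ m₂) (h' : m₁' ≤ m₂') {B : ℝ}
    (hB : |(((Finset.Ico m₁' m₂').filter P).card : ℝ) - ((m₂' : ℝ) - m₁') * v| ≤ B) :
    |(((Finset.Ico m₁ m₂).filter P).card : ℝ) - ((m₂ : ℝ) - m₁) * v| ≤ B + 2 * w := by
  have e1 := count_add P (Nat.zero_le m₁) h1
  have e2 := count_add P (Nat.zero_le m₂) h2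
  have e3 := count_add P (Nat.zero_le m₁) h
  have e4 := count_add P (Nat.zero_le m₁') h'
  have t1 := count_triv P h1 hv
  have t2 := count_triv P h2 hv
  have w1 : (m₁' : ℝ) ≤ m₁ + w := by exact_mod_cast h1'
  have w2 : (m₂' : ℝ) ≤ m₂ + w := by exact_mod_cast h2'
  rw [abs_le] at hB t1 t2 ⊢
  constructor
  · nlinarith [hB.1, hB.2, t1.1, t1.2, t2.1, t2.2]
  · nlinarith [hB.1, hB.2, t1.1, t1.2, t2.1, t2.2]

end Pool.Agent.Helper78.LD11
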