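import Pool.Agent.Helper78.LD10.Main
import Pool.Agent.Helper78.LD11.Mult
import Pool.Agent.Helper41.LD7.Refl

/-!
# Project LD11: rational multiples of the `x * θ ^ (r n + ρ)`, all rational `r > 0`, `ρ ≥ 0` and multipliers `≠ 0` at once,
the main theorem
-/

set_option autoImplicit false

namespace Pool.Agent.Helper78.LD11

open Set MeasureTheory Filter Topology
open Pool.Agent.Helper78.LD8 (Pm Uf Tt)
open Pool.Agent.Helper78.LD9 (lw lw_pos lw_zero lw_succ lw_phase lw_anti lw_tendsto lw_le log_phase Tt_phase mass9 nu_ge num_count fam_mono)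
open Pool.Agent.Helper78.LD10 (Is Good cF bt rt one_lt_rt rt_pow rt_smeas Fm Al dim_one_of exists_data asm9)
open Pool.Agent.Helper41.LD2 (dimH_le_one)
open Pool.Agent.Helper41.LD4 (kp kp_zero kp_strict exists_phase phase_len fam fam_spec le_fam)
open Pool.Agent.Helper41.LD6 (Qs)
open Pool.Agent.Helper41.LD7 (dd)
open Pool.Agent.Helper41.LD7b (Bx refl_all)
open Pool.Agent.Helper89.LD (dim_homog)
open Pool.Agent.Helper95.KX (SMeas)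

/-! ## The tree -/

/-- the requirements of all levels; `Ap σ` is the amplitude of the phase -/
structure Rq (Fp : ℕ → Pm) (Qp : ℕ → ℕ) (Ap : ℕ → ℝ) (K₀ : ℕ) (ℓ₀ : ℝ) : Prop where
  ok : ∀ σ, (Fp σ).Ok
  hQ : ∀ σ, 1 ≤ Qp σ
  hQX : ∀ σ, Qp σ ≤ (Fp σ).X
  A0 : ∀ σ, 0 < Ap σ
  A1 : ∀ σ, Ap σ ≤ 1
  pos : 0 < ℓ₀
  le : ℓ₀ ≤ 1
  big : ∀ σ, (Fp σ).Big (K₀ + σ)
  big2 : ∀ σ, (Fp σ).Z * (Fp σ).b (K₀ + σ) * (K₀ + σ) ≤ 2 ^ (K₀ + σ)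
  nr : ∀ σ, (Fp σ).NR (K₀ + σ)
  cf : ∀ σ, cF (Fp σ) (Qp σ) ≤ K₀ + σ

/-- a good window of level `k` -/
def GoodM (Fp : ℕ → Pm) (Qp : ℕ → ℕ) (Ap : ℕ → ℝ) (K₀ : ℕ) (ℓ₀ : ℝ) (k : ℕ) (a : ℝ) : Prop :=
  ∀ σ, kp σ < k → k ≤ kp (σ + 1) →
    Good (Fp σ) (Qp σ) (K₀ + σ) (lw (bt Fp K₀) (Ap σ * ℓ₀) (kp σ)) (Ap σ * a) (lw (bt Fp K₀) (Ap σ * ℓ₀) k)

variable {Fp : ℕ → Pm} {Qp : ℕ → ℕ} {Ap : ℕ → ℝ} {K₀ : ℕ} {ℓ₀ : ℝ}

theorem lw_mul (β : ℕ → ℕ) (A ℓ : ℝ) (k : ℕ) : lw β (A * ℓ) k = A * lw β ℓ k := by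
  unfold lw
  ring

theorem good_at (R : Rq Fp Qp Ap K₀ ℓ₀) {k : ℕ} {a : ℝ} (h : GoodM Fp Qp Ap K₀ ℓ₀ k a) {σ : ℕ} (h1 : kp σ ≤ k) (h2 : k ≤ kp (σ + 1)) :
    Good (Fp σ) (Qp σ) (K₀ + σ) (lw (bt Fp K₀) (Ap σ * ℓ₀) (kp σ)) (Ap σ * a) (lw (bt Fp K₀) (Ap σ * ℓ₀) k) := by
  rcases eq_or_lt_of_le h1 with h3 | h3
  · rw [← h3]
    exact Pool.Agent.Helper89.LD10.stage_start10 (R.ok σ) (R.big σ) (R.hQX σ) (R.nr σ) (lw_pos (mul_pos (R.A0 σ) R.pos) _) _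
  · exact h σ h3 h2

theorem lw_le_one (R : Rq Fp Qp Ap K₀ ℓ₀) (σ k : ℕ) : lw (bt Fp K₀) (Ap σ * ℓ₀) k ≤ 1 := by
  have h2 := lw_anti (β := bt Fp K₀) (mul_pos (R.A0 σ) R.pos) (Nat.zero_le k)
  rw [lw_zero] at h2
  exact h2.trans (mul_le_one₀ (R.A1 σ) R.pos.le R.le)

theorem K_pos (R : Rq Fp Qp Ap K₀ ℓ₀) (σ : ℕ) : 1 ≤ K₀ + σ :=
  (by norm_num : 1 ≤ 1000000000000).trans (Pool.Agent.Helper80.LD8.num_K (R.big σ))

theorem bt_pos (R : Rq Fp Qp Ap K₀ ℓ₀) (σ : ℕ) : 1 ≤ bt Fp K₀ σ := Nat.one_le_pow _ _ (K_pos R σ)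

theorem T_le (R : Rq Fp Qp Ap K₀ ℓ₀) {σ k : ℕ} (h1 : kp σ ≤ k) (h2 : k ≤ kp (σ + 1)) :
    (Fp σ).T (K₀ + σ) (lw (bt Fp K₀) (Ap σ * ℓ₀) (kp σ)) (lw (bt Fp K₀) (Ap σ * ℓ₀) k) ≤ 2 ^ (K₀ + σ) * ((Fp σ).X * (Fp σ).b (K₀ + σ)) := by
  have h3 := Tt_phase (β := bt Fp K₀) (R.ok σ) (mul_pos (R.A0 σ) R.pos) (Θ := (Fp σ).Th (K₀ + σ)) (by unfold Pm.Th; positivity) h1 h2
  have h4 : 2 ^ σ * ((Fp σ).X * bt Fp K₀ σ) ≤ 2 ^ (K₀ + σ) * ((Fp σ).X * (Fp σ).b (K₀ + σ)) :=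
    Nat.mul_le_mul_right _ (Nat.pow_le_pow_right (by norm_num) (Nat.le_add_left _ _))
  unfold Pm.T Pm.n₀
  omega

/-- one block -/
theorem good_step (R : Rq Fp Qp Ap K₀ ℓ₀) (k : ℕ) (a : ℝ) (h : GoodM Fp Qp Ap K₀ ℓ₀ k a) :
    (1 / 2 : ℝ) ^ (3 * (Fp (Nat.log 2 (k + 1))).e (K₀ + Nat.log 2 (k + 1))) * ((2 ^ bt Fp K₀ (Nat.log 2 (k + 1)) : ℕ) : ℝ) ≤
      (by classical exact (((Finset.range (2 ^ bt Fp K₀ (Nat.log 2 (k + 1)))).filter fun b : ℕ =>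
        GoodM Fp Qp Ap K₀ ℓ₀ (k + 1) (a + b * lw (bt Fp K₀) ℓ₀ (k + 1))).card : ℝ)) := by
  classical
  obtain ⟨σ, hσ1, hσ2⟩ := exists_phase k
  have hApos := mul_pos (R.A0 σ) R.pos
  have hℓk := lw_pos (β := bt Fp K₀) hApos k
  have h1 := good_at R h hσ1 hσ2.le
  have hT := T_le R (hσ1.trans (Nat.le_succ k)) (Nat.succ_le_of_lt hσ2)
  have e0 : lw (bt Fp K₀) (Ap σ * ℓ₀) (k + 1) = lw (bt Fp K₀) (Ap σ * ℓ₀) k / 2 ^ (Fp σ).b (K₀ + σ) := lw_phase _ _ hσ1 hσ2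
  rw [show k.succ = k + 1 from rfl, e0] at hT
  have h2 := Pool.Agent.Helper52.LD10.stage_step10 (R.ok σ) (R.big σ) (R.big2 σ) (R.hQ σ) (R.hQX σ) (R.nr σ) hℓk (lw_anti hApos hσ1) (lw_le_one R _ _)
    (num_count (R.ok σ) (R.big σ) (R.big2 σ) hT) h1
  rw [log_phase hσ1 hσ2]
  refine h2.trans ?_
  have h3 : ((Finset.range (2 ^ (Fp σ).b (K₀ + σ))).filter fun b : ℕ =>
      Good (Fp σ) (Qp σ) (K₀ + σ) (lw (bt Fp K₀) (Ap σ * ℓ₀) (kp σ)) (Ap σ * a + b * (lw (bt Fp K₀) (Ap σ * ℓ₀) k / (2 ^ (Fp σ).b (K₀ + σ) : ℕ)))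
        (lw (bt Fp K₀) (Ap σ * ℓ₀) k / (2 ^ (Fp σ).b (K₀ + σ) : ℕ))) ⊆
      ((Finset.range (2 ^ bt Fp K₀ σ)).filter fun b : ℕ => GoodM Fp Qp Ap K₀ ℓ₀ (k + 1) (a + b * lw (bt Fp K₀) ℓ₀ (k + 1))) := by
    intro b hb
    rw [Finset.mem_filter] at hb ⊢
    refine ⟨hb.1, fun σ' e1 e2 => ?_⟩
    have e3 : σ' = σ := by
      rcases lt_trichotomy σ' σ with e | e | e
      · have := kp_strict.monotone (show σ' + 1 ≤ σ by omega)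
        omega
      · exact e
      · have := kp_strict.monotone (show σ + 1 ≤ σ' by omega)
        omega
    subst e3
    have e4 : lw (bt Fp K₀) (Ap σ' * ℓ₀) (k + 1) = lw (bt Fp K₀) (Ap σ' * ℓ₀) k / (2 ^ (Fp σ').b (K₀ + σ') : ℕ) := by
      rw [e0]
      push_cast
      rfl
    have e5 : Ap σ' * (a + b * lw (bt Fp K₀) ℓ₀ (k + 1)) = Ap σ' * a + b * lw (bt Fp K₀) (Ap σ' * ℓ₀) (k + 1) := by
      rw [lw_mul]
      ring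
    rw [e5, e4]
    exact hb.2
  have h4 := Finset.card_le_card h3
  convert (Nat.cast_le (α := ℝ)).2 h4 using 2

/-- the discrepancy over one phase -/
theorem sum_box (R : Rq Fp Qp Ap K₀ ℓ₀) {x : ℝ} (hx : ∀ k, ∃ a, GoodM Fp Qp Ap K₀ ℓ₀ k a ∧ x ∈ Icc a (a + lw (bt Fp K₀) ℓ₀ k))
    {σ k : ℕ} (h1 : kp σ ≤ k) (h2 : k ≤ kp (σ + 1)) {s g : ℕ} (hg : 1 ≤ g) (hgQ : g ∣ Qp σ) {κ : Fin s → ℕ} (hκ : Function.Injective κ)
    (hκd : ∀ i, κ i ≤ (Fp σ).d) (α γ : Fin s → ℝ) (hαγ : ∀ i, 0 ≤ α i ∧ α i ≤ γ i ∧ γ i ≤ 1) :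
    |(((Finset.Ico (Tt ((Fp σ).θ ^ g) 1 (lw (bt Fp K₀) (Ap σ * ℓ₀) (kp σ))) (Tt ((Fp σ).θ ^ g) 1 (lw (bt Fp K₀) (Ap σ * ℓ₀) k))).filter fun n : ℕ =>
        ∀ i : Fin s, α i ≤ Int.fract (Uf (Fp σ).θ (Fp σ).c (g * n + κ i) (Ap σ * x)) ∧
          Int.fract (Uf (Fp σ).θ (Fp σ).c (g * n + κ i) (Ap σ * x)) < γ i).card : ℝ) -
      ((Tt ((Fp σ).θ ^ g) 1 (lw (bt Fp K₀) (Ap σ * ℓ₀) k) : ℝ) - Tt ((Fp σ).θ ^ g) 1 (lw (bt Fp K₀) (Ap σ * ℓ₀) (kp σ))) * ∏ i, (γ i - α i)| ≤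
      ((K₀ + σ : ℕ) : ℝ) ^ (2 * (Fp σ).a + 2 * (Fp σ).d + 5) := by
  obtain ⟨a, hg', hxa⟩ := hx k
  have hApos := mul_pos (R.A0 σ) R.pos
  have hgood := good_at R hg' h1 h2
  have hT := T_le R h1 h2
  have hc := num_count (R.ok σ) (R.big σ) (R.big2 σ) hT
  have hxa' : Ap σ * x ∈ Icc (Ap σ * a) (Ap σ * a + lw (bt Fp K₀) (Ap σ * ℓ₀) k) := by
    rw [lw_mul, ← mul_add]
    exact ⟨mul_le_mul_of_nonneg_left hxa.1 (R.A0 σ).le, mul_le_mul_of_nonneg_left hxa.2 (R.A0 σ).le⟩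
  have h3 := Pool.Agent.Helper59.LD10.cls10 (R.ok σ) (R.big σ) (R.hQ σ) (R.hQX σ) (lw_pos (β := bt Fp K₀) hApos k) (lw_anti (β := bt Fp K₀) hApos h1)
    hT hg hgQ hκ hκd
    (fun u hu => Pool.Agent.Helper89.LD10.stage_sums10 (R.ok σ) (R.big σ) (R.hQ σ) (R.hQX σ) (R.nr σ) (lw_pos (β := bt Fp K₀) hApos k)
      ((Nat.le_add_right _ _).trans hc) hgood hxa' hu) α γ hαγ
  refine h3.trans ?_
  have h4 : ((cF (Fp σ) (Qp σ) : ℕ) : ℝ) ≤ ((K₀ + σ : ℕ) : ℝ) := by exact_mod_cast R.cf σ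
  calc ((cF (Fp σ) (Qp σ) : ℕ) : ℝ) * ((K₀ + σ : ℕ) : ℝ) ^ (2 * (Fp σ).a + 2 * (Fp σ).d + 4) ≤
        ((K₀ + σ : ℕ) : ℝ) * ((K₀ + σ : ℕ) : ℝ) ^ (2 * (Fp σ).a + 2 * (Fp σ).d + 4) := mul_le_mul_of_nonneg_right h4 (by positivity)
    _ = _ := by ring

/-! ## The core -/

/-- `r`, the `ρ j` and the `t j` belong to the family `i` -/
def Rep (i : ℕ) (r : ℚ) {m : ℕ} (ρ t : Fin m → ℚ) : Prop :=
  m ≤ i ∧ ∃ (g : ℕ) (κ μ : Fin m → ℕ), 1 ≤ g ∧ g ∣ i.factorial ^ 2 ∧ Function.Injective κ ∧ (∀ j, κ j ≤ dd i) ∧ (∀ j, 1 ≤ μ j ∧ μ j ≤ dd i) ∧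
    (r : ℝ) = g / (i.factorial : ℕ) ∧ (∀ j, (ρ j : ℝ) = κ j / (i.factorial : ℕ)) ∧ ∀ j, |(t j : ℝ)| = μ j / (i.factorial : ℕ)

/-- the data of the family `i`, with the amplitude -/
noncomputable def Fa (X a : ℕ → ℕ) (θ : ℝ) (c : ℝ → ℝ) (i : ℕ) : Pm := Fm X a θ (fun y => c y / (i.factorial : ℝ)) i

/-- all the requirements of the family `i` at the level `K` -/
def Al2 (X a : ℕ → ℕ) (θ : ℝ) (c : ℝ → ℝ) (i K : ℕ) : Prop :=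
  Al X a θ (fun y => c y / (i.factorial : ℝ)) i K ∧ (2 * dd i) ^ i ≤ K

/-- the exponent of the family `i` -/
def ex (a : ℕ → ℕ) (i : ℕ) : ℕ := 2 * (2 * a i + 2 * dd i + 7) + 6

theorem core11 {θ : ℝ} (hθ : 1 < θ) (c : ℝ → ℝ) {O : Set ℝ} (hO : IsOpen O) (hne : O.Nonempty) {s : ℝ} (hs : 0 < s) (hs1 : s < 1)
    {X a : ℕ → ℕ} (hF : ∀ i, (Fa X a θ c i).Ok) (hX4 : ∀ i, i.factorial ^ 2 ≤ X i) (hamono : Monotone a) {K₀ : ℕ} (hK₀1 : 1 ≤ K₀)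
    {fm : ℕ → ℕ} (hfmm : Monotone fm) (hspec : ∀ σ, Al2 X a θ c (fm σ) (K₀ + σ)) :
    ENNReal.ofReal s ≤ dimH {ξ | ξ ∈ O ∧ ∀ (r : ℚ) (m : ℕ) (ρ t : Fin m → ℚ), 0 < r → (∃ σ₀ : ℕ, ∀ σ ≥ σ₀, Rep (fm σ) r ρ t) →
      ∃ N₀ : ℕ, ∀ N ≥ N₀, ∃ σ, K₀ + σ ≤ N ∧
        Pool.Agent.Helper41.LD7.BoxLe m (fun n i => t i * (ξ * θ ^ ((r : ℝ) * n + ρ i) + c (r * n + ρ i))) N (Real.log N ^ ex a (fm σ))} := by
  classical
  have hθ0 : 0 < θ := by linarith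
  -- the starting window
  obtain ⟨x₀, hx₀⟩ := hne
  obtain ⟨ρ, hρ, hball⟩ := Metric.isOpen_iff.1 hO x₀ hx₀
  obtain ⟨ℓ₀, hℓ₀⟩ : ∃ ℓ₀ : ℝ, ℓ₀ = min 1 (ρ / 2) := ⟨_, rfl⟩
  have hℓ₀pos : 0 < ℓ₀ := by rw [hℓ₀]; positivity
  have hℓ₀1 : ℓ₀ ≤ 1 := by rw [hℓ₀]; exact min_le_left _ _
  have hℓ₀ρ : ℓ₀ ≤ ρ / 2 := by rw [hℓ₀]; exact min_le_right _ _
  have hsub : Icc x₀ (x₀ + ℓ₀) ⊆ O := by
    intro x hx
    refine hball ?_
    rw [Metric.mem_ball, Real.dist_eq, abs_of_nonneg (by linarith [hx.1])]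
    linarith [hx.2]
  obtain ⟨Fp, hFp⟩ : ∃ Fp : ℕ → Pm, Fp = fun σ => Fa X a θ c (fm σ) := ⟨_, rfl⟩
  obtain ⟨Qp, hQp⟩ : ∃ Qp : ℕ → ℕ, Qp = fun σ => (fm σ).factorial ^ 2 := ⟨_, rfl⟩
  obtain ⟨Ap, hAp⟩ : ∃ Ap : ℕ → ℝ, Ap = fun σ => 1 / ((fm σ).factorial : ℝ) := ⟨_, rfl⟩
  have hfac : ∀ i : ℕ, (1 : ℝ) ≤ (i.factorial : ℝ) := fun i => by exact_mod_cast Nat.factorial_pos i
  have R : Rq Fp Qp Ap K₀ ℓ₀ := by
    subst hFp hQp hAp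
    exact ⟨fun σ => hF _, fun σ => Nat.one_le_pow _ _ (Nat.factorial_pos _), fun σ => hX4 _,
      fun σ => by have := hfac (fm σ); positivity, fun σ => by
        have := hfac (fm σ)
        exact (div_le_one (by positivity)).2 this, hℓ₀pos, hℓ₀1, fun σ => (hspec σ).1.1.1,
      fun σ => (hspec σ).1.1.2, fun σ => (hspec σ).1.2.1, fun σ => (hspec σ).1.2.2.1⟩
  have hdim := dim_homog (fun k => 2 ^ bt Fp K₀ (Nat.log 2 (k + 1))) (lw (bt Fp K₀) ℓ₀)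
    (fun k => (1 / 2 : ℝ) ^ (3 * (Fp (Nat.log 2 (k + 1))).e (K₀ + Nat.log 2 (k + 1)))) (GoodM Fp Qp Ap K₀ ℓ₀) x₀
    (fun k => Nat.one_le_two_pow) (lw_pos hℓ₀pos 0) (fun k => by rw [lw_succ]; push_cast; rfl) (lw_tendsto hℓ₀pos (bt_pos R))
    (fun k => by positivity) (fun k => pow_le_one₀ (by norm_num) (by norm_num)) (fun σ h _ => absurd h (Nat.not_lt_zero _))
    (fun k a hg => by
      have := good_step R k a hg
      convert this using 3) hs hs1 (mass9 (K₀ := K₀) (e := fun σ => (Fp σ).e (K₀ + σ)) hℓ₀pos (fun σ => by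
        rw [hFp, sq]
        show (dd (fm σ) + 4) * (K₀ + σ) ≤ (K₀ + σ) * (K₀ + σ)
        exact Nat.mul_le_mul_right _ (hspec σ).1.2.2.2) (fun σ => by
        rw [hFp]
        show (K₀ + σ) ^ 3 ≤ (K₀ + σ) ^ (2 * a (fm σ) + 1)
        exact Nat.pow_le_pow_right (K_pos R σ) (by have : 2 ≤ a (fm σ) := (hF (fm σ)).ha; omega)) hs hs1)
  refine hdim.trans (dimH_mono ?_)
  rintro x ⟨hx0, hx⟩
  rw [lw_zero] at hx0
  refine ⟨hsub hx0, fun r m ρ t hr hrep => ?_⟩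
  obtain ⟨σ₀, hσ₀⟩ := hrep
  obtain ⟨Ex, hEx⟩ : ∃ Ex : ℕ → ℕ, Ex = fun σ => 2 * a (fm σ) + 2 * dd (fm σ) + 7 := ⟨_, rfl⟩
  have hExm : Monotone Ex := by
    intro σ σ' h
    rw [hEx]
    have h1 := hfmm h
    have h2 := hamono h1
    have h3 : dd (fm σ) ≤ dd (fm σ') := by
      unfold dd
      exact Nat.mul_le_mul h1 (Nat.factorial_le h1)
    show 2 * a (fm σ) + 2 * dd (fm σ) + 7 ≤ 2 * a (fm σ') + 2 * dd (fm σ') + 7
    omega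
  -- the base `θ ^ r`
  have hη : 1 < θ ^ (r : ℝ) := Real.one_lt_rpow hθ (by exact_mod_cast hr)
  obtain ⟨Y, hY1, hY2, hY3⟩ := Pool.Agent.Helper78.LD8.exists_X hη
  have hG : Pm.Ok ⟨0, Y, 2, θ ^ (r : ℝ), fun _ => 0⟩ := ⟨hY1, le_rfl, hη, hY2, hY3⟩
  obtain ⟨N₀, hN₀⟩ := asm9 (β := {p : (Fin m → ℝ) × (Fin m → ℝ) // ∀ i, 0 ≤ p.1 i ∧ p.1 i ≤ p.2 i ∧ p.2 i ≤ 1})
    (fun b n => ∀ i : Fin m, b.1.1 i ≤ Int.fract (t i * (x * θ ^ ((r : ℝ) * n + ρ i) + c (r * n + ρ i))) ∧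
      Int.fract (t i * (x * θ ^ ((r : ℝ) * n + ρ i) + c (r * n + ρ i))) < b.1.2 i)
    (fun b => ∏ i, (b.1.2 i - b.1.1 i))
    (fun b => ⟨Finset.prod_nonneg fun i _ => by linarith [(b.2 i).2.1],
      Finset.prod_le_one (fun i _ => by linarith [(b.2 i).2.1]) fun i _ => by linarith [(b.2 i).1, (b.2 i).2.2]⟩)
    (ν := fun k => Tt (θ ^ (r : ℝ)) 1 (lw (bt Fp K₀) ℓ₀ k)) (X := Y) (K₀ := K₀) (Ex := Ex)
    (fun k k' hk => Pool.Agent.Helper44.LD8.Tt_mono hη (lw_pos hℓ₀pos _) (lw_anti hℓ₀pos hk) zero_le_one) hK₀1 hExm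
    (fun k => nu_ge hG hℓ₀pos hℓ₀1 (bt_pos R) k) (max σ₀ Y)
    (fun σ hσ k h1 h2 => by
      have h3 := Pool.Agent.Helper44.LD8.Tt_block_le hG (Θ := 1) (lw_pos (β := bt Fp K₀) hℓ₀pos k) zero_le_one (bt Fp K₀ σ)
      rw [← lw_phase (bt Fp K₀) ℓ₀ h1 h2] at h3
      refine h3.trans (Nat.add_le_add_left ?_ _)
      have h4 : Y ≤ K₀ + σ := ((le_max_right _ _).trans hσ).trans (Nat.le_add_left _ _)
      rw [hFp]
      show Y * (K₀ + σ) ^ (2 * a (fm σ) + 1) ≤ (K₀ + σ) ^ Ex σ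
      calc Y * (K₀ + σ) ^ (2 * a (fm σ) + 1) ≤ (K₀ + σ) * (K₀ + σ) ^ (2 * a (fm σ) + 1) := Nat.mul_le_mul_right _ h4
        _ = (K₀ + σ) ^ (2 * a (fm σ) + 2) := by ring
        _ ≤ (K₀ + σ) ^ Ex σ := Nat.pow_le_pow_right (K_pos R σ) (by rw [hEx]; show _ ≤ 2 * a (fm σ) + 2 * dd (fm σ) + 7; omega)) (by
      intro σ hσ k h1 h2 b
      obtain ⟨hmi, g, κ, μ, hg, hgQ, hκ, hκd, hμ, hrg, hρκ, htμ⟩ := hσ₀ σ ((le_max_left _ _).trans hσ)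
      have hKY : Y ≤ K₀ + σ := ((le_max_right _ _).trans hσ).trans (Nat.le_add_left _ _)
      have h4a : Bx (fun n i => (μ i : ℝ) * Uf (Fp σ).θ (Fp σ).c (g * n + κ i) (Ap σ * x))
          (Finset.Ico (Tt ((Fp σ).θ ^ g) 1 (lw (bt Fp K₀) (Ap σ * ℓ₀) (kp σ))) (Tt ((Fp σ).θ ^ g) 1 (lw (bt Fp K₀) (Ap σ * ℓ₀) k)))
          ((Tt ((Fp σ).θ ^ g) 1 (lw (bt Fp K₀) (Ap σ * ℓ₀) k) : ℝ) - Tt ((Fp σ).θ ^ g) 1 (lw (bt Fp K₀) (Ap σ * ℓ₀) (kp σ)))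
          (((∏ i, μ i : ℕ) : ℝ) * ((K₀ + σ : ℕ) : ℝ) ^ (2 * (Fp σ).a + 2 * (Fp σ).d + 5)) := fun α γ hαγ =>
        mult_box (m := μ) (sum_box R hx (s := m) h1 h2 hg (by rw [hQp]; exact hgQ) hκ (fun i => by rw [hFp]; exact hκd i)) (fun i => (hμ i).1) α γ hαγ
      have h8 : Fp σ = Fa X a θ c (fm σ) := by rw [hFp]
      have h8' : Ap σ = 1 / ((fm σ).factorial : ℝ) := by rw [hAp]
      have hfs := hfac (fm σ)
      have hfs0 : ((fm σ).factorial : ℝ) ≠ 0 := by positivity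
      rw [h8] at h4a
      have h5 : ∀ (n : ℕ) (i : Fin m), (μ i : ℝ) * Uf (Fa X a θ c (fm σ)).θ (Fa X a θ c (fm σ)).c (g * n + κ i) (Ap σ * x) =
          |(t i : ℝ)| * (x * θ ^ ((r : ℝ) * n + ρ i) + c (r * n + ρ i)) := by
        intro n i
        unfold Uf
        show (μ i : ℝ) * (Ap σ * x * rt θ (fm σ) ^ (g * n + κ i) + c (((g * n + κ i : ℕ) : ℝ) / ((fm σ).factorial : ℝ)) / ((fm σ).factorial : ℝ)) = _
        have h6 : ((g * n + κ i : ℕ) : ℝ) / ((fm σ).factorial : ℝ) = r * n + ρ i := by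
          rw [hrg, hρκ i]
          push_cast
          ring
        rw [rt_pow hθ0, h6, h8', htμ i]
        field_simp
      have h7 : (Fa X a θ c (fm σ)).θ ^ g = θ ^ (r : ℝ) := by
        show rt θ (fm σ) ^ g = _
        rw [rt_pow hθ0, hrg]
      simp only [h5, h7] at h4a
      -- the signs
      have h4 := refl_all h4a (z' := fun n i => t i * (x * θ ^ ((r : ℝ) * n + ρ i) + c (r * n + ρ i))) (fun i => by
        rcases le_total 0 (t i : ℝ) with h9 | h9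
        · exact Or.inl fun n => by rw [abs_of_nonneg h9]
        · exact Or.inr fun n => by
            rw [abs_of_nonpos h9]
            ring) b.1.1 b.1.2 b.2
      rw [← mul_assoc] at h4
      -- the factor
      have hprod : (2 : ℝ) ^ m * ((∏ i, μ i : ℕ) : ℝ) ≤ ((K₀ + σ : ℕ) : ℝ) := by
        have h9 : 2 ^ m * ∏ i, μ i ≤ (2 * dd (fm σ)) ^ m := by
          rw [mul_pow]
          refine Nat.mul_le_mul_left _ ?_
          calc ∏ i, μ i ≤ ∏ _i : Fin m, dd (fm σ) := Finset.prod_le_prod' fun i _ => (hμ i).2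
            _ = dd (fm σ) ^ m := by rw [Finset.prod_const, Finset.card_univ, Fintype.card_fin]
        rcases Nat.eq_zero_or_pos m with hm0 | hm0
        · subst hm0
          rw [Finset.univ_eq_empty, Finset.prod_empty, pow_zero, one_mul]
          exact_mod_cast K_pos R σ
        · have h10 : 1 ≤ dd (fm σ) := (hμ ⟨0, hm0⟩).1.trans (hμ ⟨0, hm0⟩).2
          have h11 : (2 * dd (fm σ)) ^ m ≤ (2 * dd (fm σ)) ^ fm σ := Nat.pow_le_pow_right (by omega) hmi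
          exact_mod_cast h9.trans (h11.trans (hspec σ).2)
      -- the ranges
      obtain ⟨w, hw⟩ : ∃ w, w = Y * (fm σ).factorial := ⟨_, rfl⟩
      have hrange : ∀ k', Tt (θ ^ (r : ℝ)) 1 (lw (bt Fp K₀) ℓ₀ k') ≤ Tt (θ ^ (r : ℝ)) 1 (lw (bt Fp K₀) (Ap σ * ℓ₀) k') ∧
          Tt (θ ^ (r : ℝ)) 1 (lw (bt Fp K₀) (Ap σ * ℓ₀) k') ≤ Tt (θ ^ (r : ℝ)) 1 (lw (bt Fp K₀) ℓ₀ k') + w := by
        intro k'
        have hp := lw_pos (β := bt Fp K₀) hℓ₀pos k'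
        have hAp0 := R.A0 σ
        rw [lw_mul]
        constructor
        · exact Pool.Agent.Helper44.LD8.Tt_mono hη (mul_pos hAp0 hp) (mul_le_of_le_one_left hp.le (R.A1 σ)) zero_le_one
        · have h9 := Pool.Agent.Helper44.LD8.Tt_block_le hG (Θ := 1) hp zero_le_one (fm σ).factorial
          rw [hw]
          refine le_trans (Pool.Agent.Helper44.LD8.Tt_mono hη (by positivity) ?_ zero_le_one) h9
          rw [h8', div_mul_eq_mul_div, one_mul]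
          refine div_le_div_of_nonneg_left hp.le (by positivity) ?_
          have h10 : (fm σ).factorial ≤ 2 ^ (fm σ).factorial := Nat.lt_two_pow_self.le
          exact_mod_cast h10
      have hmono : ∀ ℓ' : ℝ, 0 < ℓ' → Tt (θ ^ (r : ℝ)) 1 (lw (bt Fp K₀) ℓ' (kp σ)) ≤ Tt (θ ^ (r : ℝ)) 1 (lw (bt Fp K₀) ℓ' k) := fun ℓ' hℓ' =>
        Pool.Agent.Helper44.LD8.Tt_mono hη (lw_pos hℓ' _) (lw_anti hℓ' h1) zero_le_one
      have h9 := shift_count (fun n : ℕ => ∀ i : Fin m, b.1.1 i ≤ Int.fract (t i * (x * θ ^ ((r : ℝ) * n + ρ i) + c (r * n + ρ i))) ∧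
          Int.fract (t i * (x * θ ^ ((r : ℝ) * n + ρ i) + c (r * n + ρ i))) < b.1.2 i) (v := ∏ i, (b.1.2 i - b.1.1 i))
        ⟨Finset.prod_nonneg fun i _ => by linarith [(b.2 i).2.1],
          Finset.prod_le_one (fun i _ => by linarith [(b.2 i).2.1]) fun i _ => by linarith [(b.2 i).1, (b.2 i).2.2]⟩
        (hrange (kp σ)).1 (hrange (kp σ)).2 (hrange k).1 (hrange k).2 (hmono ℓ₀ hℓ₀pos) (hmono _ (mul_pos (R.A0 σ) hℓ₀pos)) h4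
      have h10 : (2 : ℝ) ^ m * ((∏ i, μ i : ℕ) : ℝ) * ((K₀ + σ : ℕ) : ℝ) ^ (2 * (Fa X a θ c (fm σ)).a + 2 * (Fa X a θ c (fm σ)).d + 5) + 2 * (w : ℝ) ≤
          ((K₀ + σ : ℕ) : ℝ) ^ Ex σ := by
        have hK := Pool.Agent.Helper80.LD8.num_K (R.big σ)
        have hKr : (1000000000000 : ℝ) ≤ ((K₀ + σ : ℕ) : ℝ) := by exact_mod_cast hK
        obtain ⟨Kr, hKr'⟩ : ∃ Kr : ℝ, Kr = ((K₀ + σ : ℕ) : ℝ) := ⟨_, rfl⟩
        rw [← hKr'] at hKr hprod ⊢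
        have h11 : ((fm σ).factorial : ℝ) ≤ Kr := by
          have h12 : (fm σ).factorial ≤ X (fm σ) := (Nat.le_self_pow two_ne_zero _).trans (hX4 _)
          have h13 := (Pool.Agent.Helper80.LD8.num_Z (Fp σ)).2.1
          have h14 := (Pool.Agent.Helper80.LD8.num_ZK (R.big σ)).1
          rw [h8] at h13 h14
          have h15 : X (fm σ) + 1 ≤ K₀ + σ := le_trans h13 h14
          rw [hKr']
          exact_mod_cast (by omega : (fm σ).factorial ≤ K₀ + σ)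
        have h12 : (Y : ℝ) ≤ Kr := by rw [hKr']; exact_mod_cast hKY
        have hwr : (w : ℝ) ≤ Kr * Kr := by
          rw [hw]
          push_cast
          exact mul_le_mul h12 h11 (by positivity) (by linarith)
        have h13 : Kr * Kr ≤ Kr ^ (2 * a (fm σ) + 2 * dd (fm σ) + 6) := by
          rw [← sq]
          exact pow_le_pow_right₀ (by linarith) (by omega)
        have h14 : (2 : ℝ) ^ m * ((∏ i, μ i : ℕ) : ℝ) * Kr ^ (2 * a (fm σ) + 2 * dd (fm σ) + 5) ≤ Kr ^ (2 * a (fm σ) + 2 * dd (fm σ) + 6) := by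
          rw [pow_succ _ (2 * a (fm σ) + 2 * dd (fm σ) + 5), mul_comm]
          exact mul_le_mul_of_nonneg_left hprod (by positivity)
        have h15 : Kr ^ Ex σ = Kr * Kr ^ (2 * a (fm σ) + 2 * dd (fm σ) + 6) := by
          rw [hEx]
          show Kr ^ (2 * a (fm σ) + 2 * dd (fm σ) + 7) = _
          rw [← pow_succ']
        have h16 : 0 < Kr ^ (2 * a (fm σ) + 2 * dd (fm σ) + 6) := by positivity
        rw [h15]
        show (2 : ℝ) ^ m * ((∏ i, μ i : ℕ) : ℝ) * Kr ^ (2 * a (fm σ) + 2 * dd (fm σ) + 5) + 2 * (w : ℝ) ≤ _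
        nlinarith
      refine le_trans (le_of_eq ?_) (h9.trans h10)
      congr!)
  refine ⟨N₀, fun N hN' => ?_⟩
  obtain ⟨σ, h1, h2⟩ := hN₀ N hN'
  refine ⟨σ, h1, fun α γ hαγ => ?_⟩
  have h3 := h2 ⟨(α, γ), hαγ⟩
  have h5 : 2 * Ex σ + 6 = ex a (fm σ) := by rw [hEx]; rfl
  rw [h5] at h3
  refine le_trans (le_of_eq ?_) h3
  congr!

/-! ## Rational numbers in the families -/

/-- the numbers of a finite set belong to all large families -/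
theorem rep_fin (S : Finset ℚ) : ∃ i₀ : ℕ, ∀ i ≥ i₀, ∀ (r : ℚ) (m : ℕ) (ρ t : Fin m → ℚ), r ∈ S → 0 < r → (∀ j, ρ j ∈ S ∧ 0 ≤ ρ j) →
    Function.Injective ρ → (∀ j, t j ∈ S ∧ t j ≠ 0) → Rep i r ρ t := by
  refine ⟨S.card + ∑ q ∈ S, (q.den + q.num.natAbs), fun i hi r m ρ t hrS hr hρ hρi ht => ?_⟩
  have h1 : ∀ q ∈ S, q.den + q.num.natAbs ≤ i := fun q hq => by
    have := Finset.single_le_sum (f := fun q : ℚ => q.den + q.num.natAbs) (fun _ _ => Nat.zero_le _) hq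
    have h2 : q.den + q.num.natAbs ≤ ∑ q ∈ S, (q.den + q.num.natAbs) := this
    omega
  have h0 := h1 r hrS
  have hfac := Nat.factorial_pos i
  have hrep := fun j => Pool.Agent.Helper41.LD7.rat_rep (hρ j).2 (i := i) (by have := h1 _ (hρ j).1; omega)
  have habsd : ∀ j, |t j|.den = (t j).den := fun j => by
    rcases le_total 0 (t j) with h9 | h9
    · rw [abs_of_nonneg h9]
    · rw [abs_of_nonpos h9, Rat.neg_den]
  have hrep' : ∀ j, (((t j).num.natAbs * (i.factorial / (t j).den) : ℕ) : ℝ) / (i.factorial : ℕ) = |(t j : ℝ)| := fun j => by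
    have h9 := Pool.Agent.Helper41.LD7.rat_rep (abs_nonneg (t j)) (i := i) (by rw [habsd]; have := h1 _ (ht j).1; omega)
    rw [habsd, show |t j|.num.natAbs = (t j).num.natAbs by
      rcases le_total 0 (t j) with h10 | h10
      · rw [abs_of_nonneg h10]
      · rw [abs_of_nonpos h10, Rat.neg_num, Int.natAbs_neg]] at h9
    rw [h9]
    push_cast
    rfl
  have hpos : ∀ q : ℚ, q ∈ S → q ≠ 0 → 0 < q.num.natAbs * (i.factorial / q.den) := fun q hq hq0 =>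
    Nat.mul_pos (Int.natAbs_pos.2 (Rat.num_ne_zero.2 hq0))
      (Nat.div_pos (Nat.le_of_dvd hfac (Nat.dvd_factorial q.den_pos (by have := h1 q hq; omega))) q.den_pos)
  have hcard : m ≤ S.card := by
    have h2 : (Finset.univ.image ρ).card = m := by
      rw [Finset.card_image_of_injective _ hρi, Finset.card_univ, Fintype.card_fin]
    rw [← h2]
    refine Finset.card_le_card fun q hq => ?_
    obtain ⟨j, -, rfl⟩ := Finset.mem_image.1 hq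
    exact (hρ j).1
  refine ⟨by omega, r.num.natAbs * (i.factorial / r.den), fun j => (ρ j).num.natAbs * (i.factorial / (ρ j).den),
    fun j => (t j).num.natAbs * (i.factorial / (t j).den), hpos r hrS hr.ne',
    Pool.Agent.Helper41.LD7.rat_dvd (by omega) (by omega) hr, ?_, ?_, ?_,
    (Pool.Agent.Helper41.LD7.rat_rep hr.le (by omega)).symm, fun j => (hrep j).symm, fun j => (hrep' j).symm⟩
  · intro j j' hjj
    have h5 : (ρ j : ℝ) = ρ j' := by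
      rw [← hrep j, ← hrep j']
      show (((ρ j).num.natAbs * (i.factorial / (ρ j).den) : ℕ) : ℝ) / _ = (((ρ j').num.natAbs * (i.factorial / (ρ j').den) : ℕ) : ℝ) / _
      have h6 : (ρ j).num.natAbs * (i.factorial / (ρ j).den) = (ρ j').num.natAbs * (i.factorial / (ρ j').den) := hjj
      rw [h6]
    exact hρi (by exact_mod_cast h5)
  · intro j
    unfold dd
    have h7 := h1 _ (hρ j).1
    exact Nat.mul_le_mul (by omega) (Nat.div_le_self _ _)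
  · intro j
    refine ⟨hpos _ (ht j).1 (ht j).2, ?_⟩
    unfold dd
    have h7 := h1 _ (ht j).1
    exact Nat.mul_le_mul (by omega) (Nat.div_le_self _ _)

/-! ## The main theorems -/

/-- the data of the families -/
theorem exists_data2 {θ : ℝ} (hθ : 1 < θ) (hm : SMeas θ) : ∃ X a : ℕ → ℕ, Monotone a ∧ (∀ i, i.factorial ^ 2 ≤ X i) ∧
    ∀ c : ℝ → ℝ, (∀ i, (Fa X a θ c i).Ok) ∧ ∀ i, ∀ᶠ K : ℕ in atTop, Al2 X a θ c i K := by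
  obtain ⟨X, a, h1, h2, h3⟩ := exists_data hθ hm
  exact ⟨X, a, h1, h2, fun c => ⟨fun i => (h3 _).1 i, fun i => ((h3 _).2 i).and (eventually_ge_atTop _)⟩⟩

/-- **nearly optimal joint discrepancy of the multiples: all rational rates, shifts and multipliers at once** -/
theorem main11 {θ : ℝ} (hθ : 1 < θ) (hm : SMeas θ) (E : ℕ → ℝ) (hE : ∀ C : ℕ, ∀ᶠ N : ℕ in atTop, Real.log N ^ C ≤ E N) (c : ℝ → ℝ)
    (O : Set ℝ) (hO : IsOpen O) (hne : O.Nonempty) :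
    dimH {ξ | ξ ∈ O ∧ ∀ (r : ℚ) (s : ℕ) (ρ t : Fin s → ℚ), 0 < r → (∀ i, 0 ≤ ρ i) → Function.Injective ρ → (∀ i, t i ≠ 0) →
      ∃ N₀ : ℕ, ∀ N ≥ N₀, Pool.Agent.Helper41.LD7.BoxLe s (fun n i => t i * (ξ * θ ^ ((r : ℝ) * n + ρ i) + c (r * n + ρ i))) N (E N)} = 1 := by
  classical
  refine dim_one_of fun s hs hs1 => ?_
  obtain ⟨X, a, hamono, hX4, hdata⟩ := exists_data2 hθ hm
  obtain ⟨hF, hN⟩ := hdata c
  have hthr : ∀ i, ∃ t : ℕ, ∀ K ≥ t, Al2 X a θ c i K ∧ Real.log K ^ ex a i ≤ E K := fun i => eventually_atTop.1 ((hN i).and (hE _))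
  choose thr hthr using hthr
  obtain ⟨K₀, hK₀⟩ : ∃ K₀, K₀ = max (thr 0) 1 := ⟨_, rfl⟩
  have hK₀1 : 1 ≤ K₀ := by rw [hK₀]; exact le_max_right _ _
  have hK₀0 : thr 0 ≤ K₀ := by rw [hK₀]; exact le_max_left _ _
  have h1 := core11 hθ c hO hne hs hs1 hF hX4 hamono hK₀1 (fam_mono thr K₀) (fun σ => (hthr _ _ (fam_spec hK₀0 σ)).1)
  refine h1.trans (dimH_mono ?_)
  rintro x ⟨hx0, hx⟩
  refine ⟨hx0, fun r m ρ t hr hρ0 hρi ht => ?_⟩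
  obtain ⟨i₀, hi₀⟩ := rep_fin (insert r (Finset.univ.image ρ ∪ Finset.univ.image t))
  obtain ⟨N₀, hN₀⟩ := hx r m ρ t hr ⟨max i₀ (thr i₀), fun σ hσ => hi₀ _ (le_fam ((le_max_left _ _).trans hσ) ((le_max_right _ _).trans hσ)) r m ρ t
    (Finset.mem_insert_self _ _) hr (fun j => ⟨Finset.mem_insert_of_mem (Finset.mem_union_left _ (Finset.mem_image_of_mem _ (Finset.mem_univ _))), hρ0 j⟩)
    hρi (fun j => ⟨Finset.mem_insert_of_mem (Finset.mem_union_right _ (Finset.mem_image_of_mem _ (Finset.mem_univ _))), ht j⟩)⟩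
  refine ⟨N₀, fun N hN' => ?_⟩
  obtain ⟨σ, h2, h3⟩ := hN₀ N hN'
  have h4 := (hthr (fam thr K₀ σ) N ((fam_spec hK₀0 σ).trans h2)).2
  exact fun α γ hαγ => (h3 α γ hαγ).trans h4

/-- **a power of the logarithm for finitely many rates, shifts and multipliers** -/
theorem main11f {θ : ℝ} (hθ : 1 < θ) (hm : SMeas θ) (S : Finset ℚ) : ∃ C : ℕ, ∀ (c : ℝ → ℝ) (O : Set ℝ), IsOpen O → O.Nonempty →
    dimH {ξ | ξ ∈ O ∧ ∀ (r : ℚ) (s : ℕ) (ρ t : Fin s → ℚ), r ∈ S → 0 < r → (∀ i, ρ i ∈ S ∧ 0 ≤ ρ i) → Function.Injective ρ → (∀ i, t i ∈ S ∧ t i ≠ 0) →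
      ∃ N₀ : ℕ, ∀ N ≥ N₀, Pool.Agent.Helper41.LD7.BoxLe s (fun n i => t i * (ξ * θ ^ ((r : ℝ) * n + ρ i) + c (r * n + ρ i))) N (Real.log N ^ C)} = 1 := by
  obtain ⟨X, a, hamono, hX4, hdata⟩ := exists_data2 hθ hm
  obtain ⟨i, hi⟩ := rep_fin S
  refine ⟨ex a i, fun c O hO hne => dim_one_of fun s hs hs1 => ?_⟩
  obtain ⟨hF, hN⟩ := hdata c
  obtain ⟨t₀, ht₀⟩ := eventually_atTop.1 (hN i)
  have h1 := core11 hθ c hO hne hs hs1 hF hX4 hamono (K₀ := max t₀ 1) (le_max_right _ _) (fm := fun _ => i) monotone_const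
    (fun σ => ht₀ _ ((le_max_left _ _).trans (Nat.le_add_right _ _)))
  refine h1.trans (dimH_mono ?_)
  rintro x ⟨hx0, hx⟩
  refine ⟨hx0, fun r m ρ t hrS hr hρ hρi ht => ?_⟩
  obtain ⟨N₀, hN₀⟩ := hx r m ρ t hr ⟨0, fun _ _ => hi i le_rfl r m ρ t hrS hr hρ hρi ht⟩
  refine ⟨N₀, fun N hN' => ?_⟩
  obtain ⟨_, _, h3⟩ := hN₀ N hN'
  exact h3

end Pool.Agent.Helper78.LD11
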